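import Pool.Agent.Q329.HC.Defs

/-! 3SUM-Indexing with unique representations and with witnesses (helper329): definitions. -/

set_option autoImplicit false

namespace Pool.Agent.Q329.UW

open Pool.Agent.Q329.HC

/-- There is a cell-probe structure with `S` cells of `w` bits and at most `T` probes (for every content of
the memory) which decides the queries with at most one representation: the arrays `A` and `B` have `n`
entries below `2 ^ m`; if at most one pair of indices satisfies `A i + B j = z`, then the answer to `z` is
whether there is such a pair. Nothing is required for the other queries. -/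
def HasUnique (n m S T w : ℕ) : Prop :=
  ∃ (mem : (Fin n → ℕ) → (Fin n → ℕ) → Fin S → Fin (2 ^ w))
    (alg : ℕ → Alg (Fin S) (Fin (2 ^ w)) Bool),
    (∀ z M, (alg z).cost M ≤ T) ∧
    ∀ A B : Fin n → ℕ, (∀ i, A i < 2 ^ m) → (∀ i, B i < 2 ^ m) → ∀ z,
      (∀ i j i' j', A i + B j = z → A i' + B j' = z → i = i' ∧ j = j') →
      ((alg z).run (mem A B) = true ↔ ∃ i j, A i + B j = z)

/-- There is a cell-probe structure with `S` cells of `w` bits and at most `T` probes (for every content of
the memory) which finds a witness for every query: the arrays `A` and `B` have `n` entries below `2 ^ m`;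
the answer to `z` is a pair of indices `i`, `j` with `A i + B j = z`, or `none` if there is no such pair. -/
def HasSearch (n m S T w : ℕ) : Prop :=
  ∃ (mem : (Fin n → ℕ) → (Fin n → ℕ) → Fin S → Fin (2 ^ w))
    (alg : ℕ → Alg (Fin S) (Fin (2 ^ w)) (Option (Fin n × Fin n))),
    (∀ z M, (alg z).cost M ≤ T) ∧
    ∀ A B : Fin n → ℕ, (∀ i, A i < 2 ^ m) → (∀ i, B i < 2 ^ m) → ∀ z,
      (∀ p, (alg z).run (mem A B) = some p → A p.1 + B p.2 = z) ∧
      ((alg z).run (mem A B) = none → ¬ ∃ i j, A i + B j = z)

end Pool.Agent.Q329.UW
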