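import Mathlib

/-! Isolation by random functions (helper329). -/

set_option autoImplicit false
set_option linter.unusedVariables false

open Finset

namespace Pool.Agent.Q329.UW

open Classical in
/-- The number of functions which vanish on a set. -/
lemma card_zero {n q : ℕ} [NeZero q] (Y : Finset (Fin n)) :
    (univ.filter fun h : Fin n → Fin q => ∀ y ∈ Y, h y = 0).card * q ^ Y.card = q ^ n := by
  have h1 : (univ.filter fun h : Fin n → Fin q => ∀ y ∈ Y, h y = 0) =
      Fintype.piFinset fun y => if y ∈ Y then {0} else univ := by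
    ext h
    rw [mem_filter, Fintype.mem_piFinset]
    constructor
    · rintro ⟨-, h2⟩ y
      by_cases hy : y ∈ Y
      · rw [if_pos hy, mem_singleton]
        exact h2 y hy
      · rw [if_neg hy]
        exact mem_univ _
    · intro h2
      refine ⟨mem_univ _, fun y hy => ?_⟩
      have := h2 y
      rw [if_pos hy, mem_singleton] at this
      exact this
  have h2 : ∀ y, (if y ∈ Y then ({0} : Finset (Fin q)) else univ).card =
      if y ∈ Y then 1 else q := by
    intro y
    by_cases hy : y ∈ Y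
    · rw [if_pos hy, if_pos hy, card_singleton]
    · rw [if_neg hy, if_neg hy, card_univ, Fintype.card_fin]
  rw [h1, Fintype.card_piFinset]
  simp only [h2]
  rw [prod_ite, prod_const_one, one_mul, prod_const, ← pow_add]
  congr 1
  have h3 := card_filter_add_card_filter_not (s := (univ : Finset (Fin n))) (fun y => y ∈ Y)
  rw [card_univ, Fintype.card_fin] at h3
  have h4 : (univ.filter fun y => y ∈ Y) = Y := by
    ext y
    simp
  rw [h4] at h3
  omega

/-- `h` isolates an element of `X` -/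
def Isolates {n q : ℕ} [NeZero q] (h : Fin n → Fin q) (X : Finset (Fin n)) : Prop :=
  ∃ x ∈ X, h x = 0 ∧ ∀ y ∈ X, h y = 0 → y = x

open Classical in
/-- An eighth of all functions isolates an element. -/
lemma card_isolates {n q : ℕ} [NeZero q] (X : Finset (Fin n)) (h0 : 0 < X.card)
    (h1 : 2 * X.card ≤ q) (h2 : q ≤ 4 * X.card) :
    q ^ n ≤ 8 * (univ.filter fun h : Fin n → Fin q => Isolates h X).card := by
  have hq : 0 < q := by omega
  obtain ⟨G, hG⟩ : ∃ G : Fin n → Finset (Fin n → Fin q), G = fun x =>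
      univ.filter fun h => h x = 0 ∧ ∀ y ∈ X, h y = 0 → y = x := ⟨_, rfl⟩
  have hdis : ∀ x ∈ X, ∀ y ∈ X, x ≠ y → Disjoint (G x) (G y) := by
    intro x hx y hy hxy
    rw [disjoint_left]
    intro h hh1 hh2
    rw [hG] at hh1 hh2
    beta_reduce at hh1 hh2
    rw [mem_filter] at hh1 hh2
    exact hxy (hh2.2.2 x hx hh1.2.1)
  have hsub : X.biUnion G ⊆ univ.filter fun h : Fin n → Fin q => Isolates h X := by
    intro h hh
    rw [mem_biUnion] at hh
    obtain ⟨x, hx, hh⟩ := hh
    rw [hG] at hh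
    beta_reduce at hh
    rw [mem_filter] at hh
    exact mem_filter.mpr ⟨mem_univ _, x, hx, hh.2⟩
  have h3 := card_le_card hsub
  rw [card_biUnion hdis] at h3
  -- the single sets
  have h4 : ∀ x ∈ X, q ^ n ≤ 2 * q * (G x).card := by
    intro x hx
    have e1 := card_zero (q := q) ({x} : Finset (Fin n))
    rw [card_singleton, pow_one] at e1
    have e2 : (univ.filter fun h : Fin n → Fin q => ∀ y ∈ ({x} : Finset (Fin n)), h y = 0) ⊆
        G x ∪ (X.erase x).biUnion fun y =>
          univ.filter fun h : Fin n → Fin q => ∀ u ∈ ({x, y} : Finset (Fin n)), h u = 0 := by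
      intro h hh
      rw [mem_filter] at hh
      have hx0 : h x = 0 := hh.2 x (mem_singleton_self _)
      rw [mem_union]
      by_cases hc : ∀ y ∈ X, h y = 0 → y = x
      · left
        rw [hG]
        exact mem_filter.mpr ⟨mem_univ _, hx0, hc⟩
      · right
        push Not at hc
        obtain ⟨y, hy1, hy2, hy3⟩ := hc
        rw [mem_biUnion]
        refine ⟨y, mem_erase.mpr ⟨hy3, hy1⟩, mem_filter.mpr ⟨mem_univ _, fun u hu => ?_⟩⟩
        rw [mem_insert, mem_singleton] at hu
        rcases hu with rfl | rfl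
        · exact hx0
        · exact hy2
    have e3 : ∀ y ∈ X.erase x, (univ.filter fun h : Fin n → Fin q =>
        ∀ u ∈ ({x, y} : Finset (Fin n)), h u = 0).card * q ^ 2 = q ^ n := by
      intro y hy
      have := card_zero (q := q) ({x, y} : Finset (Fin n))
      rwa [card_pair (mem_erase.mp hy).1.symm] at this
    have e4 : q ^ 2 * ((X.erase x).biUnion fun y =>
        univ.filter fun h : Fin n → Fin q => ∀ u ∈ ({x, y} : Finset (Fin n)), h u = 0).card ≤
        (X.card - 1) * q ^ n := by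
      calc q ^ 2 * ((X.erase x).biUnion fun y =>
            univ.filter fun h : Fin n → Fin q => ∀ u ∈ ({x, y} : Finset (Fin n)), h u = 0).card ≤
            q ^ 2 * ∑ y ∈ X.erase x, (univ.filter fun h : Fin n → Fin q =>
              ∀ u ∈ ({x, y} : Finset (Fin n)), h u = 0).card :=
            Nat.mul_le_mul_left _ card_biUnion_le
        _ = ∑ y ∈ X.erase x, (univ.filter fun h : Fin n → Fin q =>
              ∀ u ∈ ({x, y} : Finset (Fin n)), h u = 0).card * q ^ 2 := by
            rw [mul_comm, sum_mul]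
        _ = ∑ _y ∈ X.erase x, q ^ n := sum_congr rfl e3
        _ = (X.card - 1) * q ^ n := by
            rw [sum_const, smul_eq_mul, card_erase_of_mem hx]
    have e5 := (card_le_card e2).trans (card_union_le _ _)
    -- q ^ 2 * q ^ (n-1) etc.
    have e6 : q * q ^ n ≤ q ^ 2 * (G x).card + (X.card - 1) * q ^ n := by
      calc q * q ^ n = q ^ 2 * (univ.filter fun h : Fin n → Fin q =>
            ∀ y ∈ ({x} : Finset (Fin n)), h y = 0).card := by
            rw [← e1]
            ring
        _ ≤ q ^ 2 * ((G x).card + _) := Nat.mul_le_mul_left _ e5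
        _ ≤ _ := by
            rw [mul_add]
            exact Nat.add_le_add_left e4 _
    have e7 : 2 * (X.card - 1) * q ^ n ≤ q * q ^ n := Nat.mul_le_mul_right _ (by omega)
    have e8 : q * q ^ n ≤ q * (2 * q * (G x).card) := by
      have e9 : q * (2 * q * (G x).card) = 2 * (q ^ 2 * (G x).card) := by ring
      have e10 : 2 * (X.card - 1) * q ^ n = 2 * ((X.card - 1) * q ^ n) := by ring
      rw [e9]
      omega
    exact Nat.le_of_mul_le_mul_left e8 hq
  have h5 : X.card * q ^ n ≤ 2 * q * ∑ x ∈ X, (G x).card := by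
    rw [mul_sum]
    calc X.card * q ^ n = ∑ _x ∈ X, q ^ n := by rw [sum_const, smul_eq_mul]
      _ ≤ _ := sum_le_sum h4
  have h6 : X.card * q ^ n ≤ X.card * (8 * ∑ x ∈ X, (G x).card) := by
    refine h5.trans ?_
    calc 2 * q * ∑ x ∈ X, (G x).card ≤ 2 * (4 * X.card) * ∑ x ∈ X, (G x).card :=
          Nat.mul_le_mul_right _ (by omega)
      _ = _ := by ring
  have h7 := Nat.le_of_mul_le_mul_left h6 h0
  omega

open Classical in
/-- Averaging. -/
lemma average {Ω α : Type} [Fintype Ω] [Nonempty Ω] (good : Ω → α → Prop) (Z : Finset α)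
    (hZ : ∀ z ∈ Z, Fintype.card Ω ≤ 8 * (univ.filter fun ω => good ω z).card) :
    ∃ ω, 8 * (Z.filter fun z => ¬ good ω z).card ≤ 7 * Z.card := by
  by_contra hcon
  push Not at hcon
  have h0 : ∀ ω, 8 * (Z.filter fun z => good ω z).card < Z.card := by
    intro ω
    have h1 := hcon ω
    have h2 := card_filter_add_card_filter_not (s := Z) (fun z => good ω z)
    omega
  have h1 : ∑ ω : Ω, 8 * (Z.filter fun z => good ω z).card < ∑ _ω : Ω, Z.card :=
    sum_lt_sum_of_nonempty univ_nonempty fun ω _ => h0 ω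
  have h2 : ∑ ω : Ω, 8 * (Z.filter fun z => good ω z).card =
      ∑ z ∈ Z, 8 * (univ.filter fun ω => good ω z).card := by
    rw [← mul_sum, ← mul_sum]
    congr 1
    simp only [card_filter]
    exact sum_comm
  have h3 : ∑ _z ∈ Z, Fintype.card Ω ≤ ∑ z ∈ Z, 8 * (univ.filter fun ω => good ω z).card :=
    sum_le_sum hZ
  rw [sum_const, smul_eq_mul] at h1 h3
  rw [card_univ, h2] at h1
  have h4 : Z.card * Fintype.card Ω = Fintype.card Ω * Z.card := mul_comm _ _
  omega

open Classical in
lemma rounds {Ω α : Type} [Fintype Ω] [Nonempty Ω] (good : Ω → α → Prop) :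
    ∀ (t : ℕ) (Z : Finset α),
    (∀ z ∈ Z, Fintype.card Ω ≤ 8 * (univ.filter fun ω => good ω z).card) →
    ∃ ω : Fin t → Ω, 8 ^ t * (Z.filter fun z => ∀ l, ¬ good (ω l) z).card ≤ 7 ^ t * Z.card := by
  intro t
  induction t with
  | zero =>
    intro Z _
    refine ⟨fun l => l.elim0, ?_⟩
    rw [pow_zero, pow_zero, one_mul, one_mul]
    exact card_filter_le _ _
  | succ t ih =>
    intro Z hZ
    obtain ⟨ω0, h1⟩ := average good Z hZ
    obtain ⟨ω, h2⟩ := ih (Z.filter fun z => ¬ good ω0 z) (fun z hz => hZ z (mem_filter.mp hz).1)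
    refine ⟨Fin.cons ω0 ω, ?_⟩
    have h5 : (Z.filter fun z => ∀ l, ¬ good ((Fin.cons ω0 ω : Fin (t + 1) → Ω) l) z) =
        (Z.filter fun z => ¬ good ω0 z).filter fun z => ∀ l, ¬ good (ω l) z := by
      ext z
      simp only [mem_filter]
      constructor
      · rintro ⟨e1, e2⟩
        exact ⟨⟨e1, e2 0⟩, fun l => e2 l.succ⟩
      · rintro ⟨⟨e1, e2⟩, e3⟩
        exact ⟨e1, fun l => Fin.cases e2 e3 l⟩
    rw [h5]
    calc 8 ^ (t + 1) * ((Z.filter fun z => ¬ good ω0 z).filter
          fun z => ∀ l, ¬ good (ω l) z).card =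
        8 * (8 ^ t * ((Z.filter fun z => ¬ good ω0 z).filter
          fun z => ∀ l, ¬ good (ω l) z).card) := by ring
      _ ≤ 8 * (7 ^ t * (Z.filter fun z => ¬ good ω0 z).card) := Nat.mul_le_mul_left _ h2
      _ = 7 ^ t * (8 * (Z.filter fun z => ¬ good ω0 z).card) := by ring
      _ ≤ 7 ^ t * (7 * Z.card) := Nat.mul_le_mul_left _ h1
      _ = 7 ^ (t + 1) * Z.card := by ring

lemma numbers (L : ℕ) : 7 ^ (16 * L) * 2 ^ (2 * L) ≤ 8 ^ (16 * L) := by
  rw [pow_mul, pow_mul, pow_mul, ← mul_pow]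
  exact Nat.pow_le_pow_left (by norm_num) L

/-- Few functions isolate elements of all sets of a given size. -/
lemma exists_functions {n L k : ℕ} {α : Type} (X : α → Finset (Fin n)) (Z : Finset α)
    (hZ : Z.card < 2 ^ (2 * L)) (hX : ∀ z ∈ Z, 2 ^ k ≤ (X z).card ∧ (X z).card < 2 ^ (k + 1)) :
    ∃ ω : Fin (16 * L) → Fin n → Fin (2 ^ (k + 2)),
      ∀ z ∈ Z, ∃ l, Isolates (ω l) (X z) := by
  classical
  have hne : Nonempty (Fin n → Fin (2 ^ (k + 2))) := ⟨fun _ => 0⟩
  obtain ⟨ω, hω⟩ := rounds (Ω := Fin n → Fin (2 ^ (k + 2)))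
    (fun h z => Isolates h (X z)) (16 * L) Z (fun z hz => by
      obtain ⟨h1, h2⟩ := hX z hz
      have h3 : 0 < 2 ^ k := by positivity
      have h4 : 2 ^ (k + 1) = 2 * 2 ^ k := by ring
      have h5 : 2 ^ (k + 2) = 4 * 2 ^ k := by ring
      rw [Fintype.card_fun, Fintype.card_fin, Fintype.card_fin]
      convert card_isolates (q := 2 ^ (k + 2)) (X z) (by omega) (by omega) (by omega))
  refine ⟨ω, fun z hz => ?_⟩
  by_contra hno
  push Not at hno
  have h1 : z ∈ Z.filter fun z => ∀ l, ¬ Isolates (ω l) (X z) := mem_filter.mpr ⟨hz, hno⟩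
  have h2 := card_pos.mpr ⟨_, h1⟩
  have h3 : 8 ^ (16 * L) * 1 ≤ 7 ^ (16 * L) * Z.card :=
    (Nat.mul_le_mul_left _ h2).trans (by convert hω)
  have h4 : 7 ^ (16 * L) * Z.card < 7 ^ (16 * L) * 2 ^ (2 * L) :=
    Nat.mul_lt_mul_of_pos_left hZ (by positivity)
  have h5 := numbers L
  omega

end Pool.Agent.Q329.UW
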