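import Pool.Agent.Q329.UW.Defs
import Pool.Agent.Q329.UW.Iso
import Pool.Agent.Q329.HC.Tools

/-! Witnesses from the decision of unique representations (helper329). -/

set_option autoImplicit false
set_option linter.unusedVariables false

open Finset

namespace Pool.Agent.Q329.UW

open Pool.Agent.Q329.HC Pool.Agent.Q329.HC.Alg

section tools

variable {C Word Out : Type}

/-- all answers -/
def allB : (r : ℕ) → (Fin r → Alg C Word Bool) → Alg C Word (Fin r → Bool)
  | 0, _ => out fun x => x.elim0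
  | r + 1, f => (f 0).bind fun b => (allB r fun x => f x.succ).bind fun g => out (Fin.cons b g)

lemma run_allB (M : C → Word) : ∀ (r : ℕ) (f : Fin r → Alg C Word Bool),
    (allB r f).run M = fun x => (f x).run M := by
  intro r
  induction r with
  | zero => intro f; funext x; exact x.elim0
  | succ r ih =>
    intro f
    unfold allB
    rw [run_bind, run_bind, ih]
    show (Fin.cons ((f 0).run M) fun x => (f x.succ).run M : Fin (r + 1) → Bool) = _
    funext x
    refine Fin.cases ?_ (fun x => ?_) x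
    · rfl
    · rfl

lemma cost_allB (M : C → Word) (T : ℕ) : ∀ (r : ℕ) (f : Fin r → Alg C Word Bool),
    (∀ x, (f x).cost M ≤ T) → (allB r f).cost M ≤ r * T := by
  intro r
  induction r with
  | zero => intro f _; exact Nat.zero_le _
  | succ r ih =>
    intro f h
    unfold allB
    rw [cost_bind, cost_bind, Nat.succ_mul]
    have h1 := h 0
    have h2 := ih (fun x => f x.succ) fun x => h x.succ
    show (f 0).cost M + ((allB r fun x => f x.succ).cost M + 0) ≤ _
    omega

/-- the first proper answer -/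
def firstP : List (Alg C Word (Option Out)) → Alg C Word (Option Out)
  | [] => out none
  | P :: L => P.bind fun r => if r.isSome = true then out r else firstP L

lemma run_firstP (M : C → Word) (L : List (Alg C Word (Option Out))) :
    (∀ p, (firstP L).run M = some p → ∃ P ∈ L, P.run M = some p) ∧
    ((firstP L).run M = none → ∀ P ∈ L, P.run M = none) := by
  induction L with
  | nil =>
    refine ⟨fun p h => ?_, fun _ P hP => absurd hP (List.not_mem_nil)⟩
    exact absurd h (by simp [firstP, run])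
  | cons P L ih =>
    unfold firstP
    rw [run_bind]
    by_cases h : (P.run M).isSome = true
    · rw [if_pos h]
      refine ⟨fun p hp => ⟨P, List.mem_cons_self .., hp⟩, fun hn => ?_⟩
      have hn' : P.run M = none := hn
      rw [hn'] at h
      exact absurd h (by simp)
    · rw [if_neg h]
      refine ⟨fun p hp => ?_, fun hn Q hQ => ?_⟩
      · obtain ⟨Q, hQ, h1⟩ := ih.1 p hp
        exact ⟨Q, List.mem_cons_of_mem _ hQ, h1⟩
      · rcases List.mem_cons.mp hQ with rfl | hQ
        · rwa [Option.not_isSome_iff_eq_none] at h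
        · exact ih.2 hn Q hQ

lemma cost_firstP (M : C → Word) (c : ℕ) (L : List (Alg C Word (Option Out)))
    (h : ∀ P ∈ L, P.cost M ≤ c) : (firstP L).cost M ≤ L.length * c := by
  induction L with
  | nil => exact Nat.zero_le _
  | cons P L ih =>
    unfold firstP
    rw [cost_bind, List.length_cons, Nat.succ_mul]
    have h1 := h P (List.mem_cons_self ..)
    have h2 := ih fun Q hQ => h Q (List.mem_cons_of_mem _ hQ)
    split_ifs
    · show P.cost M + 0 ≤ _
      omega
    · omega

end tools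

/-- the addresses -/
abbrev Adr (n L S : ℕ) : Type :=
  ((Fin L × Fin (16 * L)) × ((Fin L ⊕ Fin L) × Fin S)) ⊕ (Fin n ⊕ Fin n)

open Classical in
/-- the entries with a property, the others being replaced by a large number -/
noncomputable def sub {n : ℕ} (m : ℕ) (A : Fin n → ℕ) (P : Fin n → Prop) : Fin n → ℕ :=
  fun i => if P i then A i else 2 ^ (m + 1)

lemma sub_lt {n m : ℕ} {A : Fin n → ℕ} (hA : ∀ i, A i < 2 ^ m) (P : Fin n → Prop) (i : Fin n) :
    sub m A P i < 2 ^ (m + 2) := by
  have h1 : 2 ^ (m + 1) = 2 * 2 ^ m := by ring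
  have h2 : 2 ^ (m + 2) = 4 * 2 ^ m := by ring
  have h3 : 0 < 2 ^ m := by positivity
  have h4 := hA i
  unfold sub
  split_ifs <;> omega

lemma sub_sum {n m : ℕ} {A B : Fin n → ℕ} {P Q : Fin n → Prop} {z : ℕ} (hz : z < 2 ^ (m + 1))
    (i j : Fin n) : sub m A P i + sub m B Q j = z ↔ P i ∧ Q j ∧ A i + B j = z := by
  unfold sub
  by_cases h1 : P i
  · by_cases h2 : Q j
    · rw [if_pos h1, if_pos h2]
      simp [h1, h2]
    · rw [if_neg h2]
      constructor
      · intro h; omega
      · intro h; exact absurd h.2.1 h2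
  · rw [if_neg h1]
    constructor
    · intro h; omega
    · intro h; exact absurd h.1 h1

section

variable {n L S T w : ℕ}

open Classical in
/-- the pair with given code words, checked with the stored entries -/
noncomputable def check (code : Fin n → Fin L → Bool) (z : ℕ) (f g : Fin L → Bool) :
    Alg (Adr n L S) (Fin (2 ^ w)) (Option (Fin n × Fin n)) :=
  if h : (∃ i, code i = f) ∧ ∃ j, code j = g then
    probe (Sum.inr (Sum.inl h.1.choose)) fun a => probe (Sum.inr (Sum.inr h.2.choose)) fun b =>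
      if a.1 + b.1 = z then out (some (h.1.choose, h.2.choose)) else out none
  else out none

/-- one level -/
noncomputable def lev (code : Fin n → Fin L → Bool)
    (algc : ℕ → Alg (Fin S) (Fin (2 ^ w)) Bool) (z : ℕ) (l : Fin L × Fin (16 * L)) :
    Alg (Adr n L S) (Fin (2 ^ w)) (Option (Fin n × Fin n)) :=
  (allB L fun b => (algc z).mapC fun s => (Sum.inl (l, (Sum.inl b, s)) : Adr n L S)).bind fun f =>
    (allB L fun b => (algc z).mapC fun s =>
      (Sum.inl (l, (Sum.inr b, s)) : Adr n L S)).bind fun g => check code z f g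

lemma cost_check (code : Fin n → Fin L → Bool) (z : ℕ) (f g : Fin L → Bool)
    (M : Adr n L S → Fin (2 ^ w)) : (check code z f g).cost M ≤ 2 := by
  unfold check
  split_ifs with h
  · show (if (M (Sum.inr (Sum.inl h.1.choose))).1 + (M (Sum.inr (Sum.inr h.2.choose))).1 = z then
      (out (some (h.1.choose, h.2.choose)) : Alg (Adr n L S) (Fin (2 ^ w)) _) else
        out none).cost M + 1 + 1 ≤ 2
    split_ifs
    · exact le_refl 2
    · exact le_refl 2
  · exact Nat.zero_le _

lemma cost_lev (code : Fin n → Fin L → Bool) (algc : ℕ → Alg (Fin S) (Fin (2 ^ w)) Bool)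
    (hT : ∀ z M, (algc z).cost M ≤ T) (z : ℕ) (l : Fin L × Fin (16 * L))
    (M : Adr n L S → Fin (2 ^ w)) : (lev code algc z l).cost M ≤ 2 * L * T + 2 := by
  unfold lev
  rw [cost_bind, cost_bind]
  have h1 := cost_allB M T L (fun b => (algc z).mapC fun s =>
    (Sum.inl (l, (Sum.inl b, s)) : Adr n L S)) (fun b => by rw [cost_mapC]; exact hT _ _)
  have h2 := cost_allB M T L (fun b => (algc z).mapC fun s =>
    (Sum.inl (l, (Sum.inr b, s)) : Adr n L S)) (fun b => by rw [cost_mapC]; exact hT _ _)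
  refine (Nat.add_le_add h1 (Nat.add_le_add h2 (cost_check code z _ _ M))).trans ?_
  have : 2 * L * T = L * T + L * T := by ring
  omega

/-- One level: answers are right, and an isolated pair is found. -/
lemma lev_spec {m : ℕ} (hmw : m ≤ w) (code : Fin n → Fin L → Bool)
    (hcode : Function.Injective code) (algc : ℕ → Alg (Fin S) (Fin (2 ^ w)) Bool)
    (memc : (Fin n → ℕ) → (Fin n → ℕ) → Fin S → Fin (2 ^ w))
    (hc : ∀ A B : Fin n → ℕ, (∀ i, A i < 2 ^ (m + 2)) → (∀ i, B i < 2 ^ (m + 2)) → ∀ z,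
      (∀ i j i' j', A i + B j = z → A i' + B j' = z → i = i' ∧ j = j') →
      ((algc z).run (memc A B) = true ↔ ∃ i j, A i + B j = z))
    (A B : Fin n → ℕ) (hA : ∀ i, A i < 2 ^ m) (hB : ∀ i, B i < 2 ^ m) (P Q : Fin n → Prop)
    (M : Adr n L S → Fin (2 ^ w)) (l : Fin L × Fin (16 * L))
    (h1 : ∀ b s, M (Sum.inl (l, (Sum.inl b, s))) =
      memc (sub m A fun i => P i ∧ code i b = true) (sub m B Q) s)
    (h2 : ∀ b s, M (Sum.inl (l, (Sum.inr b, s))) =
      memc (sub m A P) (sub m B fun j => Q j ∧ code j b = true) s)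
    (h3 : ∀ i, (M (Sum.inr (Sum.inl i))).1 = A i) (h4 : ∀ i, (M (Sum.inr (Sum.inr i))).1 = B i)
    (z : ℕ) (hz : z < 2 ^ (m + 1)) :
    (∀ p, (lev code algc z l).run M = some p → A p.1 + B p.2 = z) ∧
    ((∃ x y, P x ∧ Q y ∧ A x + B y = z ∧
      ∀ i j, P i → Q j → A i + B j = z → i = x ∧ j = y) →
      (lev code algc z l).run M ≠ none) := by
  classical
  obtain ⟨f, hf⟩ : ∃ f : Fin L → Bool, f = fun b =>
    (algc z).run (memc (sub m A fun i => P i ∧ code i b = true) (sub m B Q)) := ⟨_, rfl⟩
  obtain ⟨g, hg⟩ : ∃ g : Fin L → Bool, g = fun b =>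
    (algc z).run (memc (sub m A P) (sub m B fun j => Q j ∧ code j b = true)) := ⟨_, rfl⟩
  have hrun : (lev code algc z l).run M = (check code z f g).run M := by
    unfold lev
    rw [run_bind, run_bind, run_allB, run_allB]
    have e1 : (fun b => ((algc z).mapC fun s =>
        (Sum.inl (l, (Sum.inl b, s)) : Adr n L S)).run M) = f := by
      funext b
      rw [run_mapC, hf]
      congr 1
      funext s
      exact h1 b s
    have e2 : (fun b => ((algc z).mapC fun s =>
        (Sum.inl (l, (Sum.inr b, s)) : Adr n L S)).run M) = g := by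
      funext b
      rw [run_mapC, hg]
      congr 1
      funext s
      exact h2 b s
    rw [e1, e2]
  rw [hrun]
  constructor
  · intro p hp
    unfold check at hp
    split_ifs at hp with h
    · have hp' : (if (M (Sum.inr (Sum.inl h.1.choose))).1 +
          (M (Sum.inr (Sum.inr h.2.choose))).1 = z then
          (out (some (h.1.choose, h.2.choose)) : Alg (Adr n L S) (Fin (2 ^ w)) _) else
            out none).run M = some p := hp
      split_ifs at hp' with h5
      · rw [h3, h4] at h5
        have h6 : (h.1.choose, h.2.choose) = p := Option.some_injective _ hp'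
        rw [← h6]
        exact h5
      · exact absurd hp' (by simp [run])
    · exact absurd hp (by simp [run])
  · rintro ⟨x, y, hx, hy, hxy, huniq⟩
    have hfx : code x = f := by
      funext b
      have e := hc (sub m A fun i => P i ∧ code i b = true) (sub m B Q) (sub_lt hA _)
        (sub_lt hB _) z (by
          intro i j i' j' e1 e2
          rw [sub_sum hz] at e1 e2
          obtain ⟨u1, u2⟩ := huniq i j e1.1.1 e1.2.1 e1.2.2
          obtain ⟨u3, u4⟩ := huniq i' j' e2.1.1 e2.2.1 e2.2.2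
          exact ⟨u1.trans u3.symm, u2.trans u4.symm⟩)
      have e' : f b = true ↔ code x b = true := by
        rw [hf]
        rw [e]
        constructor
        · rintro ⟨i, j, e1⟩
          rw [sub_sum hz] at e1
          obtain ⟨u1, u2⟩ := huniq i j e1.1.1 e1.2.1 e1.2.2
          rw [← u1]
          exact e1.1.2
        · intro e1
          exact ⟨x, y, (sub_sum hz x y).mpr ⟨⟨hx, e1⟩, hy, hxy⟩⟩
      rw [Bool.eq_iff_iff]
      exact e'.symm
    have hgy : code y = g := by
      funext b
      have e := hc (sub m A P) (sub m B fun j => Q j ∧ code j b = true) (sub_lt hA _)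
        (sub_lt hB _) z (by
          intro i j i' j' e1 e2
          rw [sub_sum hz] at e1 e2
          obtain ⟨u1, u2⟩ := huniq i j e1.1 e1.2.1.1 e1.2.2
          obtain ⟨u3, u4⟩ := huniq i' j' e2.1 e2.2.1.1 e2.2.2
          exact ⟨u1.trans u3.symm, u2.trans u4.symm⟩)
      have e' : g b = true ↔ code y b = true := by
        rw [hg]
        rw [e]
        constructor
        · rintro ⟨i, j, e1⟩
          rw [sub_sum hz] at e1
          obtain ⟨u1, u2⟩ := huniq i j e1.1 e1.2.1.1 e1.2.2
          rw [← u2]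
          exact e1.2.1.2
        · intro e1
          exact ⟨x, y, (sub_sum hz x y).mpr ⟨hx, ⟨hy, e1⟩, hxy⟩⟩
      rw [Bool.eq_iff_iff]
      exact e'.symm
    have h : (∃ i, code i = f) ∧ ∃ j, code j = g := ⟨⟨x, hfx⟩, ⟨y, hgy⟩⟩
    have hxc : h.1.choose = x := hcode (h.1.choose_spec.trans hfx.symm)
    have hyc : h.2.choose = y := hcode (h.2.choose_spec.trans hgy.symm)
    unfold check
    rw [dif_pos h]
    show (if (M (Sum.inr (Sum.inl h.1.choose))).1 + (M (Sum.inr (Sum.inr h.2.choose))).1 = z then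
      (out (some (h.1.choose, h.2.choose)) : Alg (Adr n L S) (Fin (2 ^ w)) _) else
        out none).run M ≠ none
    rw [h3, h4, hxc, hyc, if_pos hxy]
    exact fun h => absurd h (by simp [run])

end

/-- The reduction. -/
theorem search {n m S T w : ℕ} (hmw : m ≤ w) (h : HasUnique n (m + 2) S T w) :
    HasSearch n m (32 * (Nat.log 2 n + 1) ^ 3 * S + 2 * n)
      (32 * (Nat.log 2 n + 1) ^ 3 * T + 32 * (Nat.log 2 n + 1) ^ 2) w := by
  classical
  obtain ⟨memc, algc, hT, hc⟩ := h
  obtain ⟨L, hL⟩ : ∃ L, L = Nat.log 2 n + 1 := ⟨_, rfl⟩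
  rw [← hL]
  have hnL : n < 2 ^ L := by
    rw [hL]
    exact Nat.lt_pow_succ_log_self (by norm_num) n
  have hpos : 0 < 2 ^ w := Nat.pow_pos (by norm_num)
  obtain ⟨code, hcode⟩ : ∃ code : Fin n → Fin L → Bool, Function.Injective code := by
    obtain ⟨φ⟩ : Nonempty (Fin n ↪ (Fin L → Bool)) := by
      apply Function.Embedding.nonempty_of_card_le
      rw [Fintype.card_fin, Fintype.card_fun, Fintype.card_bool, Fintype.card_fin]
      exact hnL.le
    exact ⟨φ, φ.injective⟩
  have hcard : Fintype.card (Adr n L S) = 32 * L ^ 3 * S + 2 * n := by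
    simp only [Fintype.card_sum, Fintype.card_prod, Fintype.card_fin]
    ring
  obtain ⟨ψ⟩ : Nonempty (Adr n L S ≃ Fin (32 * L ^ 3 * S + 2 * n)) :=
    ⟨Fintype.equivFinOfCardEq hcard⟩
  -- the memory for given arrays
  have hinst : ∀ A B : Fin n → ℕ, (∀ i, A i < 2 ^ m) → (∀ i, B i < 2 ^ m) →
      ∃ M : Adr n L S → Fin (2 ^ w), ∀ z < 2 ^ (m + 1),
        (∀ l p, (lev code algc z l).run M = some p → A p.1 + B p.2 = z) ∧
        ((∃ i j, A i + B j = z) → ∃ l, (lev code algc z l).run M ≠ none) := by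
    intro A B hA hB
    obtain ⟨I0, hI0⟩ : ∃ I0 : Finset (Fin n), I0 = univ.filter fun i => ∀ i' < i, A i' ≠ A i :=
      ⟨_, rfl⟩
    obtain ⟨J0, hJ0⟩ : ∃ J0 : Finset (Fin n), J0 = univ.filter fun j => ∀ j' < j, B j' ≠ B j :=
      ⟨_, rfl⟩
    have hfirst : ∀ (D : Fin n → ℕ) (i : Fin n), ∃ i0, (∀ i' < i0, D i' ≠ D i0) ∧ D i0 = D i := by
      intro D i
      have hne : (univ.filter fun i' => D i' = D i).Nonempty :=
        ⟨i, mem_filter.mpr ⟨mem_univ _, rfl⟩⟩
      refine ⟨(univ.filter fun i' => D i' = D i).min' hne, fun i' hi' e => ?_,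
        (mem_filter.mp (min'_mem _ hne)).2⟩
      have h5 := (mem_filter.mp (min'_mem _ hne)).2
      have h6 := min'_le (univ.filter fun i' => D i' = D i) i'
        (mem_filter.mpr ⟨mem_univ _, e.trans h5⟩)
      exact absurd hi' (not_lt.mpr h6)
    have hJu : ∀ j ∈ J0, ∀ j' ∈ J0, B j = B j' → j = j' := by
      intro j hj j' hj' e
      rw [hJ0, mem_filter] at hj hj'
      rcases lt_trichotomy j j' with h5 | h5 | h5
      · exact absurd e (hj'.2 j h5)
      · exact h5
      · exact absurd e.symm (hj.2 j' h5)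
    obtain ⟨X, hX⟩ : ∃ X : ℕ → Finset (Fin n), X = fun z =>
        I0.filter fun i => ∃ j ∈ J0, A i + B j = z := ⟨_, rfl⟩
    obtain ⟨Z, hZ⟩ : ∃ Z : ℕ → Finset ℕ, Z = fun k =>
        ((univ : Finset (Fin n × Fin n)).image fun p => A p.1 + B p.2).filter fun z =>
          2 ^ k ≤ (X z).card ∧ (X z).card < 2 ^ (k + 1) := ⟨_, rfl⟩
    have hZc : ∀ k, (Z k).card < 2 ^ (2 * L) := by
      intro k
      rw [hZ]
      refine lt_of_le_of_lt ((card_filter_le _ _).trans card_image_le) ?_
      rw [card_univ, Fintype.card_prod, Fintype.card_fin, ← sq, mul_comm 2 L, pow_mul]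
      exact Nat.pow_lt_pow_left hnL (by norm_num)
    have hω : ∀ k : Fin L, ∃ ω : Fin (16 * L) → Fin n → Fin (2 ^ (k.1 + 2)),
        ∀ z ∈ Z k.1, ∃ l, Isolates (ω l) (X z) := by
      intro k
      refine exists_functions X (Z k.1) (hZc k.1) fun z hz => ?_
      rw [hZ] at hz
      exact (mem_filter.mp hz).2
    choose ω hω using hω
    obtain ⟨P, hP⟩ : ∃ P : Fin L × Fin (16 * L) → Fin n → Prop, P = fun l i =>
        i ∈ I0 ∧ ω l.1 l.2 i = 0 := ⟨_, rfl⟩
    obtain ⟨M, hM⟩ : ∃ M : Adr n L S → Fin (2 ^ w), M = fun a =>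
        match a with
        | Sum.inl (l, (Sum.inl b, s)) =>
          memc (sub m A fun i => P l i ∧ code i b = true) (sub m B fun j => j ∈ J0) s
        | Sum.inl (l, (Sum.inr b, s)) =>
          memc (sub m A (P l)) (sub m B fun j => j ∈ J0 ∧ code j b = true) s
        | Sum.inr (Sum.inl i) => ⟨A i % 2 ^ w, Nat.mod_lt _ hpos⟩
        | Sum.inr (Sum.inr i) => ⟨B i % 2 ^ w, Nat.mod_lt _ hpos⟩ := ⟨_, rfl⟩
    have hmw' : 2 ^ m ≤ 2 ^ w := Nat.pow_le_pow_right (by norm_num) hmw
    have hspec : ∀ z < 2 ^ (m + 1), ∀ l, _ := fun z hz l =>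
      lev_spec hmw code hcode algc memc hc A B hA hB (P l) (fun j => j ∈ J0) M l
        (by intro b s; rw [hM]) (by intro b s; rw [hM])
        (by intro i; rw [hM]; exact Nat.mod_eq_of_lt ((hA i).trans_le hmw'))
        (by intro i; rw [hM]; exact Nat.mod_eq_of_lt ((hB i).trans_le hmw')) z hz
    refine ⟨M, fun z hz => ⟨fun l p hp => (hspec z hz l).1 p hp, ?_⟩⟩
    rintro ⟨i, j, hij⟩
    obtain ⟨i0, hi0, hi1⟩ := hfirst A i
    obtain ⟨j0, hj0, hj1⟩ := hfirst B j
    have hi0' : i0 ∈ I0 := by
      rw [hI0]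
      exact mem_filter.mpr ⟨mem_univ _, hi0⟩
    have hj0' : j0 ∈ J0 := by
      rw [hJ0]
      exact mem_filter.mpr ⟨mem_univ _, hj0⟩
    have hX0 : i0 ∈ X z := by
      rw [hX]
      exact mem_filter.mpr ⟨hi0', j0, hj0', by rw [hi1, hj1, hij]⟩
    have hXpos : (X z).card ≠ 0 := (card_pos.mpr ⟨i0, hX0⟩).ne'
    have hXlt : (X z).card < 2 ^ L := by
      refine lt_of_le_of_lt (card_le_univ _) ?_
      rw [Fintype.card_fin]
      exact hnL
    have hk : Nat.log 2 (X z).card < L := (Nat.log_lt_iff_lt_pow (by norm_num) hXpos).mpr hXlt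
    obtain ⟨τ, x, hx1, hx2, hx3⟩ := hω ⟨Nat.log 2 (X z).card, hk⟩ z (by
      rw [hZ]
      refine mem_filter.mpr ⟨mem_image.mpr ⟨(i, j), mem_univ _, hij⟩, ?_, ?_⟩
      · exact Nat.pow_log_le_self 2 hXpos
      · exact Nat.lt_pow_succ_log_self (by norm_num) _)
    refine ⟨(⟨Nat.log 2 (X z).card, hk⟩, τ), (hspec z hz _).2 ?_⟩
    have hx4 : x ∈ I0 ∧ ∃ j ∈ J0, A x + B j = z := by
      rw [hX] at hx1
      exact mem_filter.mp hx1
    obtain ⟨hx5, y, hy1, hy2⟩ := hx4
    refine ⟨x, y, ?_, hy1, hy2, fun i' j' e1 e2 e3 => ?_⟩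
    · rw [hP]
      exact ⟨hx5, hx2⟩
    · rw [hP] at e1
      have e4 : i' = x := hx3 i' (by
        rw [hX]
        exact mem_filter.mpr ⟨e1.1, j', e2, e3⟩) e1.2
      refine ⟨e4, hJu j' e2 y hy1 ?_⟩
      rw [e4] at e3
      omega
  refine ⟨fun A B x => if hAB : (∀ i, A i < 2 ^ m) ∧ ∀ i, B i < 2 ^ m then
      (hinst A B hAB.1 hAB.2).choose (ψ.symm x) else ⟨0, hpos⟩,
    fun z => if z < 2 ^ (m + 1) then
      (firstP (((univ : Finset (Fin L × Fin (16 * L))).toList.map fun l =>
        lev code algc z l))).mapC ψ else out none, fun z M => ?_, fun A B hA hB z => ?_⟩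
  · beta_reduce
    split_ifs
    · rw [cost_mapC]
      refine (cost_firstP _ (2 * L * T + 2) _ fun P hP => ?_).trans (le_of_eq ?_)
      · obtain ⟨l, -, rfl⟩ := List.mem_map.mp hP
        exact cost_lev code algc hT z l _
      · rw [List.length_map, length_toList, card_univ, Fintype.card_prod, Fintype.card_fin,
          Fintype.card_fin]
        ring
    · exact Nat.zero_le _
  · beta_reduce
    have hAB : (∀ i, A i < 2 ^ m) ∧ ∀ i, B i < 2 ^ m := ⟨hA, hB⟩
    simp only [dif_pos hAB]
    split_ifs with hz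
    · rw [run_mapC]
      have h3 : (fun x => (hinst A B hAB.1 hAB.2).choose (ψ.symm (ψ x))) =
          (hinst A B hAB.1 hAB.2).choose := by
        funext x
        rw [Equiv.symm_apply_apply]
      rw [h3]
      obtain ⟨h4, h5⟩ := (hinst A B hAB.1 hAB.2).choose_spec z hz
      obtain ⟨h6, h7⟩ := run_firstP (hinst A B hAB.1 hAB.2).choose
        ((univ : Finset (Fin L × Fin (16 * L))).toList.map fun l => lev code algc z l)
      refine ⟨fun p hp => ?_, fun hn hex => ?_⟩
      · obtain ⟨P, hP, h8⟩ := h6 p hp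
        obtain ⟨l, -, rfl⟩ := List.mem_map.mp hP
        exact h4 l p h8
      · obtain ⟨l, h8⟩ := h5 hex
        exact h8 (h7 hn _ (List.mem_map.mpr ⟨l, mem_toList.mpr (mem_univ _), rfl⟩))
    · refine ⟨fun p hp => absurd hp (by simp [run]), ?_⟩
      rintro - ⟨i, j, hij⟩
      apply hz
      have h4 := hA i
      have h5 := hB j
      rw [pow_succ]
      omega

end Pool.Agent.Q329.UW
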